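import Mathlib

set_option autoImplicit false
set_option maxSynthPendingDepth 3

namespace Pool.Agent.Results.MP_95765a_co.All

open Finset

/-- every finite loopless digraph has an arc-binding set-indexer with equality in `(*)`. -/
theorem result (V : Type) [Fintype V] (A : V → V → Prop) (hA : ∀ v, ¬ A v v) :
    ∃ (X : Type) (_ : Fintype X) (_ : DecidableEq X) (_ : Nonempty X) (f : V → Finset X),
      Function.Injective f ∧
      (∀ u v u' v', A u v → A u' v' → f u \ f v = f u' \ f v' → u = u' ∧ v = v') ∧
      (∀ u v, A u v → (f u \ f v).card < (f v).card) ∧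
      ∀ u v, A u v → ((f u \ f v).card : ℤ) = min ((f u).card : ℤ) ((f v).card - 1) := by
  classical
  let f : V → Finset (Sym2 (Option V)) := fun u => univ.image fun w => s(some u, w)
  have hm : ∀ u v w, s(some u, w) ∈ f v ↔ u = v ∨ w = some v := fun u v w => by
    simp only [f, mem_image, mem_univ, true_and, Sym2.eq_iff]
    aesop
  have hc : ∀ u, (f u).card = Fintype.card V + 1 := fun u => by
    rw [card_image_of_injective _ fun a b h => Sym2.congr_right.1 h]; simp
  have hd : ∀ u v, A u v → (f u \ f v).card = Fintype.card V := fun u v h => by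
    have h1 : u ≠ v := fun e => hA v (e ▸ h)
    have : f v ∩ f u = {s(some u, some v)} := by
      ext x
      simp only [mem_inter, mem_singleton]
      refine ⟨fun ⟨h2, h3⟩ => ?_, fun h2 => h2 ▸ ⟨(hm _ _ _).2 (Or.inr rfl), (hm _ _ _).2 (Or.inl rfl)⟩⟩
      obtain ⟨w, -, rfl⟩ := mem_image.1 h3
      rw [((hm _ _ _).1 h2).resolve_left h1]
    rw [card_sdiff, this, hc]; simp
  refine ⟨_, inferInstance, inferInstance, ⟨s(none, none)⟩, f, fun u v h => ?_,
    fun u v u' v' h h' e => ?_, fun u v h => by rw [hd u v h, hc]; omega,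
    fun u v h => by rw [hd u v h, hc, hc]; omega⟩
  · simpa using (hm u v none).1 (h ▸ (hm u u none).2 (Or.inl rfl))
  · have h1 : u ≠ v := fun e => hA v (e ▸ h)
    have h2 : u' ≠ v' := fun e => hA v' (e ▸ h')
    have h3 := Finset.ext_iff.1 e s(some u, none)
    have h4 := Finset.ext_iff.1 e s(some u, some v)
    simp only [mem_sdiff, hm] at h3 h4
    aesop

end Pool.Agent.Results.MP_95765a_co.All
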